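import Pool.Agent.V8H33.GJ.GeoA

/-!
# The iterated stacked polytope
-/

set_option autoImplicit false

namespace Pool.Agent.V8H1.GJ

open Pool.Agent.V8H33.GJ

/-- A set of labels all of whose nonempty subsets are faces is affinely independent. -/
theorem ai_of_faces {ι : Type*} {d : ℕ} {p : ι → E d} {L F : Finset ι} (hFL : F ⊆ L)
    (h : ∀ B, B ⊆ F → B.Nonempty → Face p L B) : AffineIndependent ℝ (fun i : F => p i) := by
  classical
  by_contra hcon
  obtain ⟨I, y, hy1, hy2⟩ := Convex.radon_partition hcon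
  have hIne : (I : Set F).Nonempty := by
    by_contra he
    rw [Set.not_nonempty_iff_eq_empty] at he
    rw [he] at hy1
    simp at hy1
  let B : Finset ι := F.filter (fun i => ∃ h : i ∈ F, (⟨i, h⟩ : F) ∈ I)
  have hB : B ⊆ F := Finset.filter_subset _ _
  have hBne : B.Nonempty := by
    obtain ⟨⟨i, hi⟩, hiI⟩ := hIne
    exact ⟨i, Finset.mem_filter.2 ⟨hi, hi, hiI⟩⟩
  obtain ⟨l, hl⟩ := h B hB hBne
  obtain ⟨b, hb⟩ := hBne
  have hbm := (hl b).1 hb
  have hin : ∀ i : F, i ∈ I → l (p i) = l (p b) := by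
    intro i hi
    have h1 : (i : ι) ∈ B := Finset.mem_filter.2 ⟨i.2, i.2, hi⟩
    have h2 := (hl i).1 h1
    exact le_antisymm (hbm.2 i h2.1) (h2.2 b hbm.1)
  have hout : ∀ i : F, i ∉ I → l (p i) < l (p b) := by
    intro i hi
    have h1 : (i : ι) ∉ B := by
      intro hc
      obtain ⟨_, h3, h4⟩ := Finset.mem_filter.1 hc
      exact hi h4
    refine lt_of_le_of_ne (hbm.2 i (hFL i.2)) (fun he => h1 ?_)
    refine (hl i).2 ⟨hFL i.2, fun j hj => ?_⟩
    rw [he]
    exact hbm.2 j hj
  have hs1 : Convex ℝ {v : E d | l v = l (p b)} := convex_hyperplane l.isLinear (l (p b))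
  have hs2 : Convex ℝ {v : E d | l v < l (p b)} := convex_halfSpace_lt l.isLinear (l (p b))
  have e1 : y ∈ {v : E d | l v = l (p b)} := by
    refine convexHull_min ?_ hs1 hy1
    rintro _ ⟨i, hi, rfl⟩
    exact hin i hi
  have e2 : y ∈ {v : E d | l v < l (p b)} := by
    refine convexHull_min ?_ hs2 hy2
    rintro _ ⟨i, hi, rfl⟩
    exact hout i hi
  exact absurd e1 (ne_of_lt e2)

variable {d : ℕ}

/-- Closed under suffixes. -/
def Cl (S : Finset (List (Fin d))) : Prop := ∀ v ∈ S, ∀ u, u <:+ v → u ∈ S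

structure Inv (S : Finset (List (Fin d))) (p : Lab d → E d) : Prop where
  span : affineSpan ℝ (p '' (LS S : Set (Lab d))) = ⊤
  leaf : ∀ w : List (Fin d), w ∉ S → (w = [] ∨ w.tail ∈ S) → Face p (LS S) (FS w)
  nf : ∀ w ∈ S, ¬ Face p (LS S) (FS w)
  small0 : ∀ A, A ⊆ T0 d → A.Nonempty → A.card ≤ d - 1 → Face p (LS S) A
  small : ∀ w ∈ S, ∀ A, A ⊆ TS w → A.Nonempty → A.card ≤ d - 1 → Face p (LS S) A
  simp : ∀ A, Face p (LS S) A → A ≠ LS S → A.card ≤ d ∧
    ∀ B, B ⊆ A → B.Nonempty → Face p (LS S) B

theorem card_T0 : (T0 d).card = d + 1 := by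
  rw [T0, Finset.card_insert_of_notMem, Finset.card_image_of_injective, Finset.card_univ,
    Fintype.card_fin]
  · intro a b hab
    injection hab
  · intro h
    obtain ⟨j, _, hj⟩ := Finset.mem_image.1 h
    cases hj

theorem card_LS (S : Finset (List (Fin d))) : d + 1 ≤ (LS S).card := by
  rw [← card_T0 (d := d)]
  exact Finset.card_le_card Finset.subset_union_left

theorem ne_LS {S : Finset (List (Fin d))} {A : Finset (Lab d)} (h : A.card ≤ d) : A ≠ LS S := by
  rintro rfl
  have := card_LS S
  omega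

theorem apx_not_mem_LS {S : Finset (List (Fin d))} {w : List (Fin d)} (h : w ∉ S) :
    Lab.apx w ∉ LS S := by
  intro hc
  rcases Finset.mem_union.1 hc with hc | hc
  · rcases Finset.mem_insert.1 hc with hc | hc
    · cases hc
    · obtain ⟨j, _, hj⟩ := Finset.mem_image.1 hc
      cases hj
  · obtain ⟨u, hu, hj⟩ := Finset.mem_image.1 hc
    injection hj with hj
    exact h (hj ▸ hu)

theorem LS_insert (S : Finset (List (Fin d))) (w : List (Fin d)) :
    LS (insert w S) = insert (Lab.apx w) (LS S) := by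
  rw [LS, LS, Finset.image_insert, Finset.union_insert]

theorem FS_sub {S : Finset (List (Fin d))} (hS : Cl S) {w : List (Fin d)}
    (hw : w = [] ∨ w.tail ∈ S) : FS w ⊆ LS S := by
  intro y hy
  obtain ⟨i, rfl⟩ := mem_FS.1 hy
  rcases Fc_shape w i with ⟨j, hj⟩ | ⟨v, hv, hl, hs⟩
  · rw [hj]
    refine Finset.mem_union_left _ (Finset.mem_insert_of_mem ?_)
    exact Finset.mem_image_of_mem _ (Finset.mem_univ _)
  · rw [hv]
    refine Finset.mem_union_right _ (Finset.mem_image_of_mem _ ?_)
    rcases hw with rfl | hw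
    · simp at hl
    · refine hS _ hw v ?_
      cases w with
      | nil => simp at hl
      | cons a w =>
        rcases List.suffix_cons_iff.1 hs with h1 | h1
        · rw [h1] at hl
          omega
        · exact h1

theorem step (h : StmStack) (hd : 3 ≤ d) {S : Finset (List (Fin d))} (hS : Cl S)
    {w : List (Fin d)} (hw : w ∉ S) (hw' : w = [] ∨ w.tail ∈ S) {p : Lab d → E d}
    (hp : Inv S p) : ∃ q : Lab d → E d, Inv (insert w S) q := by
  have hF : Face p (LS S) (FS w) := hp.leaf w hw hw'
  have hFL : FS w ≠ LS S := ne_LS (card_FS w).le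
  have hsub := (hp.simp (FS w) hF hFL).2
  obtain ⟨z, hz⟩ := h (Lab d) inferInstance d p (LS S) (FS w) (Lab.apx w) (by omega)
    (apx_not_mem_LS hw) hF hFL (card_FS w)
    (ai_of_faces (FS_sub hS hw') hsub) hp.span
  have hx : (Lab.apx w : Lab d) ∉ FS w := fun hc => by
    have := (apx_mem_FS hc).1
    omega
  have hxL := apx_not_mem_LS hw
  rw [← LS_insert] at hz
  -- the two ways to make faces
  have hl : ∀ A, Face p (LS S) A → A ≠ LS S → A ≠ FS w →
      Face (Function.update p (Lab.apx w) z) (LS (insert w S)) A := fun A h1 h2 h3 =>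
    ((hz A).2 (Or.inl ⟨h1, h2, h3⟩)).1
  have hr : ∀ B, B ⊂ FS w →
      Face (Function.update p (Lab.apx w) z) (LS (insert w S)) (insert (Lab.apx w) B) :=
    fun B hB => ((hz _).2 (Or.inr ⟨B, hB, rfl⟩)).1
  refine ⟨Function.update p (Lab.apx w) z, ?_, ?_, ?_, ?_, ?_, ?_⟩
  · rw [eq_top_iff, ← hp.span]
    apply affineSpan_mono
    rintro _ ⟨y, hy, rfl⟩
    refine ⟨y, ?_, ?_⟩
    · rw [LS_insert]
      exact Finset.mem_coe.2 (Finset.mem_insert_of_mem (Finset.mem_coe.1 hy))
    · rw [Function.update_of_ne]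
      rintro rfl
      exact hxL (Finset.mem_coe.1 hy)
  · intro v hv hv'
    rw [Finset.mem_insert, not_or] at hv
    by_cases hc : v = [] ∨ v.tail ∈ S
    · exact hl _ (hp.leaf v hv.2 hc) (ne_LS (card_FS v).le) (fun e => hv.1 (FS_inj e))
    · rw [not_or] at hc
      have h1 : v.tail = w := by
        rcases hv' with h1 | h1
        · exact absurd h1 hc.1
        · rcases Finset.mem_insert.1 h1 with h2 | h2
          · exact h2
          · exact absurd h2 hc.2
      obtain ⟨i, u, rfl⟩ := List.exists_cons_of_ne_nil hc.1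
      have h2 : u = w := h1
      subst h2
      have h3 : FS (i :: u) = insert (Lab.apx u) ((FS u).erase (Fc u i)) := by
        ext y
        rw [mem_FS_cons, Finset.mem_insert, Finset.mem_erase, mem_FS]
        constructor
        · rintro (h4 | ⟨j, hj, rfl⟩)
          · exact Or.inl h4
          · exact Or.inr ⟨fun e => hj (Fc_inj u e), j, rfl⟩
        · rintro (h4 | ⟨h4, j, rfl⟩)
          · exact Or.inl h4
          · exact Or.inr ⟨j, fun e => h4 (by rw [e]), rfl⟩
      rw [h3]
      exact hr _ (Finset.erase_ssubset (mem_FS.2 ⟨i, rfl⟩))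
  · intro v hv hc
    have h1 := (hz _).1 ⟨hc, ne_LS (card_FS v).le⟩
    rcases Finset.mem_insert.1 hv with rfl | hv
    · rcases h1 with h1 | ⟨B, _, h1⟩
      · exact h1.2.2 rfl
      · exact hx (by rw [h1]; exact Finset.mem_insert_self _ _)
    · rcases h1 with h1 | ⟨B, _, h1⟩
      · exact hp.nf v hv h1.1
      · have h2 : Lab.apx w ∈ FS v := by rw [h1]; exact Finset.mem_insert_self _ _
        exact hw (hS v hv w (apx_mem_FS h2).2)
  · intro A h1 h2 h3
    refine hl A (hp.small0 A h1 h2 h3) (ne_LS (by omega)) ?_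
    rintro rfl
    rw [card_FS] at h3
    omega
  · intro v hv A h1 h2 h3
    have hAF : A ≠ FS w := by
      rintro rfl
      rw [card_FS] at h3
      omega
    rcases Finset.mem_insert.1 hv with rfl | hv
    · by_cases hxA : Lab.apx v ∈ A
      · rw [← Finset.insert_erase hxA]
        apply hr
        have h4 : A.erase (Lab.apx v) ⊆ FS v := by
          intro y hy
          rw [Finset.mem_erase] at hy
          rcases Finset.mem_insert.1 (h1 hy.2) with h5 | h5
          · exact absurd h5 hy.1
          · exact h5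
        refine Finset.ssubset_iff_subset_ne.2 ⟨h4, ?_⟩
        intro e
        have h5 : (A.erase (Lab.apx v)).card = d := by rw [e, card_FS]
        have h6 := Finset.card_le_card (Finset.erase_subset (Lab.apx v) A)
        omega
      · have h4 : A ⊆ FS v := by
          intro y hy
          rcases Finset.mem_insert.1 (h1 hy) with h5 | h5
          · exact absurd (h5 ▸ hy) hxA
          · exact h5
        exact hl A (hsub A h4 h2) (ne_LS (by omega)) hAF
    · exact hl A (hp.small v hv A h1 h2 h3) (ne_LS (by omega)) hAF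
  · intro A hA hne
    rcases (hz A).1 ⟨hA, hne⟩ with ⟨h1, h2, h3⟩ | ⟨B0, hB0, rfl⟩
    · obtain ⟨h4, h5⟩ := hp.simp A h1 h2
      refine ⟨h4, fun B hB hBne => ?_⟩
      have h6 : B.card ≤ A.card := Finset.card_le_card hB
      refine hl B (h5 B hB hBne) (ne_LS (by omega)) ?_
      rintro rfl
      exact h3 (Finset.eq_of_subset_of_card_le hB (by rw [card_FS]; exact h4)).symm
    · have h4 : B0.card < d := (Finset.card_lt_card hB0).trans_eq (card_FS w)
      refine ⟨(Finset.card_insert_le _ _).trans (by omega), fun B hB hBne => ?_⟩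
      by_cases hxB : Lab.apx w ∈ B
      · rw [← Finset.insert_erase hxB]
        apply hr
        refine lt_of_le_of_lt ?_ hB0
        intro y hy
        rw [Finset.mem_erase] at hy
        rcases Finset.mem_insert.1 (hB hy.2) with h5 | h5
        · exact absurd h5 hy.1
        · exact h5
      · have h5 : B ⊆ B0 := by
          intro y hy
          rcases Finset.mem_insert.1 (hB hy) with h6 | h6
          · exact absurd (h6 ▸ hy) hxB
          · exact h6
        have h6 : B.card ≤ B0.card := Finset.card_le_card h5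
        refine hl B (hsub B (h5.trans hB0.1) hBne) (ne_LS (by omega)) ?_
        rintro rfl
        rw [card_FS] at h6
        omega

/-- The initial simplex. -/
noncomputable def p0 : Lab d → E d
  | Lab.base j => EuclideanSpace.single j 1
  | _ => 0

theorem face0 {A : Finset (Lab d)} (hA : A ⊆ T0 d) (hne : A.Nonempty) : Face p0 (T0 d) A := by
  classical
  let c : Fin d → ℝ := fun j => if Lab.base j ∈ A then (if Lab.opp ∈ A then 0 else 1) else -1
  let l : E d →L[ℝ] ℝ := ∑ j, c j • (EuclideanSpace.proj j : E d →L[ℝ] ℝ)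
  have hlb : ∀ j, l (p0 (Lab.base j)) = c j := by
    intro j
    simp [l, p0]
  have hlo : l (p0 Lab.opp) = 0 := by
    simp [p0]
  let M : ℝ := if Lab.opp ∈ A then 0 else 1
  have hval : ∀ i ∈ T0 d, (i ∈ A → l (p0 i) = M) ∧ (i ∉ A → l (p0 i) < M) := by
    intro i hi
    rcases Finset.mem_insert.1 hi with rfl | hi
    · rw [hlo]
      constructor
      · intro h
        simp [M, h]
      · intro h
        simp [M, h]
    · obtain ⟨j, _, rfl⟩ := Finset.mem_image.1 hi
      rw [hlb]
      constructor
      · intro h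
        simp [M, c, h]
      · intro h
        simp only [M, c, h, if_false]
        split_ifs <;> norm_num
  refine ⟨l, fun i => ⟨fun hi => ⟨hA hi, fun j hj => ?_⟩, fun hi => ?_⟩⟩
  · rw [(hval i (hA hi)).1 hi]
    by_cases hjA : j ∈ A
    · exact ((hval j hj).1 hjA).le
    · exact ((hval j hj).2 hjA).le
  · by_contra hiA
    obtain ⟨a, ha⟩ := hne
    have h1 := (hval a (hA ha)).1 ha
    have h2 := (hval i hi.1).2 hiA
    have h3 := hi.2 a (hA ha)
    rw [h1] at h3
    linarith

theorem base (hd : 3 ≤ d) : Inv (∅ : Finset (List (Fin d))) p0 := by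
  have hL : LS (∅ : Finset (List (Fin d))) = T0 d := by
    rw [LS, Finset.image_empty, Finset.union_empty]
  have hF0 : FS ([] : List (Fin d)) ⊆ T0 d := by
    intro y hy
    obtain ⟨i, rfl⟩ := mem_FS.1 hy
    exact Finset.mem_insert_of_mem (Finset.mem_image_of_mem _ (Finset.mem_univ _))
  refine ⟨?_, ?_, ?_, ?_, ?_, ?_⟩
  · rw [hL]
    have hai : AffineIndependent ℝ (fun i : T0 d => p0 (i : Lab d)) :=
      ai_of_faces (L := T0 d) subset_rfl (fun B hB hne => face0 hB hne)
    have h1 := (hai.affineSpan_eq_top_iff_card_eq_finrank_add_one).2 (by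
      rw [Fintype.card_coe, card_T0, finrank_euclideanSpace, Fintype.card_fin])
    rw [← h1]
    congr 1
    ext y
    constructor
    · rintro ⟨i, hi, rfl⟩
      exact ⟨⟨i, hi⟩, rfl⟩
    · rintro ⟨⟨i, hi⟩, rfl⟩
      exact ⟨i, hi, rfl⟩
  · intro w _ hw
    rw [hL]
    rcases hw with rfl | hw
    · refine face0 hF0 ?_
      exact ⟨_, mem_FS.2 ⟨⟨0, by omega⟩, rfl⟩⟩
    · simp at hw
  · intro w hw
    simp at hw
  · intro A h1 h2 _
    rw [hL]
    exact face0 h1 h2
  · intro w hw
    simp at hw
  · intro A hA hne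
    rw [hL] at hA hne ⊢
    have h1 : A ⊆ T0 d := by
      obtain ⟨l, hl⟩ := hA
      exact fun i hi => ((hl i).1 hi).1
    refine ⟨?_, fun B hB hBne => face0 (hB.trans h1) hBne⟩
    have h2 := Finset.card_lt_card (lt_of_le_of_ne h1 hne)
    rw [card_T0] at h2
    omega

theorem exists_inv (h : StmStack) (hd : 3 ≤ d) (n : ℕ) : ∀ S : Finset (List (Fin d)), Cl S →
    S.card = n → ∃ p : Lab d → E d, Inv S p := by
  induction n with
  | zero =>
    intro S _ hn
    rw [Finset.card_eq_zero] at hn
    subst hn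
    exact ⟨p0, base hd⟩
  | succ n ih =>
    intro S hS hn
    have hne : S.Nonempty := by
      rw [← Finset.card_pos]
      omega
    obtain ⟨w, hw, hmax⟩ := S.exists_max_image List.length hne
    have hS' : Cl (S.erase w) := by
      intro v hv u hu
      rw [Finset.mem_erase] at hv ⊢
      refine ⟨?_, hS v hv.2 u hu⟩
      rintro rfl
      have h1 := hu.length_le
      have h2 := hmax v hv.2
      exact hv.1 (hu.eq_of_length (by omega)).symm
    obtain ⟨p, hp⟩ := ih (S.erase w) hS' (by rw [Finset.card_erase_of_mem hw]; omega)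
    have hw' : w = [] ∨ w.tail ∈ S.erase w := by
      cases w with
      | nil => exact Or.inl rfl
      | cons a w =>
        refine Or.inr (Finset.mem_erase.2 ⟨?_, hS _ hw _ (List.suffix_cons a w)⟩)
        intro e
        have := congrArg List.length e
        simp at this
    obtain ⟨q, hq⟩ := step h hd hS' (Finset.notMem_erase w S) hw' hp
    rw [Finset.insert_erase hw] at hq
    exact ⟨q, hq⟩

/-- TREE. -/
theorem stmTree (h : StmStack) : StmTree := by
  intro d k hd
  obtain ⟨p, hp⟩ := exists_inv h hd _ (wd d k)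
    (fun v hv u hu => suffix_mem_wd hu.length_le hv) rfl
  refine ⟨p, ⟨hp.nf, ?_, hp.small0, hp.small⟩, hp.span, hp.simp⟩
  intro w hw
  refine hp.leaf w ?_ ?_
  · rw [mem_wd]
    omega
  · cases w with
    | nil => exact Or.inl rfl
    | cons a w =>
      right
      rw [List.tail_cons, mem_wd]
      rw [List.length_cons] at hw
      omega

end Pool.Agent.V8H1.GJ
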