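import Pool.Agent.V8H33.GJ.GeoA

/-!
# The combinatorial count
-/

set_option autoImplicit false

namespace Pool.Agent.V8H1.GJ

open Pool.Agent.V8H33.GJ

section

variable {d k : ℕ} {X : Finset (Lab d)}

/-- The branch of `w` meets `X`. -/
def Meets (X : Finset (Lab d)) (w : List (Fin d)) : Prop := ∃ v ∈ X, InBr w v

open Classical in
/-- The words of length `j` whose branch meets `X`. -/
noncomputable def W (k : ℕ) (X : Finset (Lab d)) (j : ℕ) : Finset (List (Fin d)) :=
  (wd d k).filter (fun w => w.length = j ∧ Meets X w)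

theorem mem_W (hX : X ⊆ LS (wd d k)) {j : ℕ} {w : List (Fin d)} :
    w ∈ W k X j ↔ w.length = j ∧ Meets X w := by
  classical
  rw [W, Finset.mem_filter]
  refine ⟨fun h => h.2, fun h => ⟨?_, h⟩⟩
  obtain ⟨_, v, hv, u, rfl⟩ := h
  have h1 := apx_mem.1 (hX hv)
  rw [mem_wd, List.length_append] at h1
  rw [mem_wd]
  omega

open Classical in
/-- The children of `w` whose branch meets `X`. -/
noncomputable def Ch (X : Finset (Lab d)) (w : List (Fin d)) : Finset (Fin d) :=
  Finset.univ.filter (fun i => Meets X (i :: w))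

/-- The suffix of length `j` of the word of a label. -/
def suf (j : ℕ) : Lab d → List (Fin d)
  | Lab.apx u => u.drop (u.length - j)
  | _ => []

theorem suf_of {w : List (Fin d)} {v : Lab d} (h : InBr w v) : suf w.length v = w := by
  obtain ⟨u, rfl⟩ := h
  show (u ++ w).drop ((u ++ w).length - w.length) = w
  rw [List.length_append, Nat.add_sub_cancel, List.drop_left]

theorem ch_le (hX : X ⊆ LS (wd d k))
    (h : ∀ w ∈ wd d k, ∀ (g : Fin 4 → Option (Fin d)) (x : Fin 4 → Lab d), Function.Injective g →
      (∀ i, Side (LS (wd d k)) w (g i) (x i)) → ∃ i, x i ∉ X)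
    {w : List (Fin d)} (hw : w ∈ wd d k) {r : Lab d} (hr : r ∈ X) (h1 : r ∉ FS w)
    (h2 : ¬ InBr w r) : (Ch X w).card ≤ 2 := by
  classical
  by_contra hcon
  push Not at hcon
  obtain ⟨a, ha, b, hb, c, hc, hab, hac, hbc⟩ := Finset.two_lt_card.1 hcon
  obtain ⟨va, hva, hva'⟩ := (Finset.mem_filter.1 ha).2
  obtain ⟨vb, hvb, hvb'⟩ := (Finset.mem_filter.1 hb).2
  obtain ⟨vc, hvc, hvc'⟩ := (Finset.mem_filter.1 hc).2
  obtain ⟨i, hi⟩ := h w hw ![none, some a, some b, some c] ![r, va, vb, vc] (by
    intro i j hij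
    fin_cases i <;> fin_cases j <;> simp_all [eq_comm]) (by
    intro i
    fin_cases i
    · exact ⟨hX hr, h1, h2⟩
    · exact ⟨hX hva, hva'⟩
    · exact ⟨hX hvb, hvb'⟩
    · exact ⟨hX hvc, hvc'⟩)
  fin_cases i
  · exact hi hr
  · exact hi hva
  · exact hi hvb
  · exact hi hvc

theorem W_succ (hX : X ⊆ LS (wd d k))
    (h : ∀ w ∈ wd d k, ∀ (g : Fin 4 → Option (Fin d)) (x : Fin 4 → Lab d), Function.Injective g →
      (∀ i, Side (LS (wd d k)) w (g i) (x i)) → ∃ i, x i ∉ X)
    {R : Finset (Lab d)} (hR : R ⊆ X) (hRc : R.card = d + 1) (j : ℕ) :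
    (W k X (j + 1)).card ≤ 2 * (W k X j).card + d * (d + 1) := by
  classical
  let S : Finset (List (Fin d)) := (W k X j).filter (fun w => ∀ r ∈ R, r ∈ FS w ∨ InBr w r)
  have hS : S.card ≤ d + 1 := by
    have h1 : S ⊆ R.image (suf j) := by
      intro w hw
      obtain ⟨h2, h3⟩ := Finset.mem_filter.1 hw
      have h4 := ((mem_W hX).1 h2).1
      have h5 : ∃ r ∈ R, r ∉ FS w := by
        by_contra hc
        push Not at hc
        have h6 := Finset.card_le_card (show R ⊆ FS w from hc)
        rw [card_FS, hRc] at h6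
        omega
      obtain ⟨r, hr, hr'⟩ := h5
      rcases h3 r hr with h6 | h6
      · exact absurd h6 hr'
      · rw [← h4]
        exact Finset.mem_image.2 ⟨r, hr, suf_of h6⟩
    calc S.card ≤ (R.image (suf j)).card := Finset.card_le_card h1
      _ ≤ R.card := Finset.card_image_le
      _ = d + 1 := hRc
  have hsub : W k X (j + 1) ⊆ (W k X j).biUnion (fun w => (Ch X w).image (fun i => i :: w)) := by
    intro v hv
    obtain ⟨h1, h2⟩ := (mem_W hX).1 hv
    cases v with
    | nil => simp at h1
    | cons i w =>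
      refine Finset.mem_biUnion.2 ⟨w, (mem_W hX).2 ⟨by simpa using h1, ?_⟩, ?_⟩
      · obtain ⟨y, hy, u, hu⟩ := h2
        refine ⟨y, hy, u ++ [i], ?_⟩
        rw [hu, List.append_assoc, List.singleton_append]
      · exact Finset.mem_image.2 ⟨i, Finset.mem_filter.2 ⟨Finset.mem_univ _, h2⟩, rfl⟩
  have hch : ∀ w ∈ W k X j, (Ch X w).card ≤ 2 + (if w ∈ S then d else 0) := by
    intro w hw
    by_cases hwS : w ∈ S
    · rw [if_pos hwS]
      have h1 : (Ch X w).card ≤ d := by
        refine (Finset.card_le_univ _).trans ?_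
        rw [Fintype.card_fin]
      omega
    · rw [if_neg hwS]
      have h1 : ∃ r ∈ R, r ∉ FS w ∧ ¬ InBr w r := by
        by_contra hc
        push Not at hc
        refine hwS (Finset.mem_filter.2 ⟨hw, fun r hr => ?_⟩)
        by_cases h2 : r ∈ FS w
        · exact Or.inl h2
        · exact Or.inr (hc r hr h2)
      obtain ⟨r, hr, h2, h3⟩ := h1
      exact ch_le hX h (Finset.mem_filter.1 hw).1 (hR hr) h2 h3
  calc (W k X (j + 1)).card
      ≤ ((W k X j).biUnion (fun w => (Ch X w).image (fun i => i :: w))).card :=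
        Finset.card_le_card hsub
    _ ≤ ∑ w ∈ W k X j, ((Ch X w).image (fun i => i :: w)).card := Finset.card_biUnion_le
    _ ≤ ∑ w ∈ W k X j, (2 + (if w ∈ S then d else 0)) :=
        Finset.sum_le_sum fun w hw => Finset.card_image_le.trans (hch w hw)
    _ = 2 * (W k X j).card + d * ((W k X j).filter (fun w => w ∈ S)).card := by
        rw [Finset.sum_add_distrib, Finset.sum_const, Finset.sum_ite, Finset.sum_const,
          Finset.sum_const]
        simp only [smul_eq_mul, mul_zero, add_zero]
        ring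
    _ ≤ 2 * (W k X j).card + d * (d + 1) := by
        have h1 : ((W k X j).filter (fun w => w ∈ S)).card ≤ d + 1 :=
          (Finset.card_le_card (fun w hw => (Finset.mem_filter.1 hw).2)).trans hS
        have := Nat.mul_le_mul_left d h1
        omega

end

/-- COUNT. -/
theorem stmCount : StmCount := by
  classical
  intro d hd
  refine ⟨d + 2 + d * (d + 1), fun k X hX h => ?_⟩
  have hk : 1 ≤ 2 ^ k := Nat.one_le_two_pow
  by_cases hc : X.card ≤ d
  · calc X.card ≤ d := hc
      _ ≤ (d + 2 + d * (d + 1)) * 1 := by omega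
      _ ≤ (d + 2 + d * (d + 1)) * 2 ^ k := Nat.mul_le_mul_left _ hk
  · push Not at hc
    obtain ⟨R, hR, hRc⟩ := Finset.exists_subset_card_eq (show d + 1 ≤ X.card from hc)
    have hW : ∀ j, (W k X j).card + d * (d + 1) ≤ (1 + d * (d + 1)) * 2 ^ j := by
      intro j
      induction j with
      | zero =>
        have h1 : (W k X 0).card ≤ 1 := by
          refine Finset.card_le_one.2 fun a ha b hb => ?_
          have ha' := ((mem_W hX).1 ha).1
          have hb' := ((mem_W hX).1 hb).1
          rw [List.length_eq_zero_iff] at ha' hb'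
          rw [ha', hb']
        rw [pow_zero, mul_one]
        omega
      | succ j ih =>
        have h1 := W_succ hX h hR hRc j
        rw [pow_succ, ← mul_assoc]
        omega
    have hsub : X ⊆ T0 d ∪ (Finset.range k).biUnion (fun j => (W k X j).image Lab.apx) := by
      intro v hv
      rcases Finset.mem_union.1 (hX hv) with h1 | h1
      · exact Finset.mem_union_left _ h1
      · obtain ⟨u, hu, rfl⟩ := Finset.mem_image.1 h1
        refine Finset.mem_union_right _ (Finset.mem_biUnion.2 ⟨u.length, ?_, ?_⟩)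
        · rw [Finset.mem_range]
          exact mem_wd.1 hu
        · exact Finset.mem_image_of_mem _ ((mem_W hX).2 ⟨rfl, _, hv, [], rfl⟩)
    have hT : (T0 d).card ≤ d + 1 := by
      rw [T0]
      refine (Finset.card_insert_le _ _).trans ?_
      have : (Finset.univ.image (Lab.base : Fin d → Lab d)).card ≤ d := by
        refine Finset.card_image_le.trans ?_
        rw [Finset.card_univ, Fintype.card_fin]
      omega
    have hsum : ∀ m : ℕ, ∑ j ∈ Finset.range m, (W k X j).card + (1 + d * (d + 1)) ≤
        (1 + d * (d + 1)) * 2 ^ m := by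
      intro m
      induction m with
      | zero => simp
      | succ m ih =>
        have h1 := hW m
        rw [Finset.sum_range_succ, pow_succ, ← mul_assoc]
        omega
    have h2 : X.card ≤ (d + 1) + ∑ j ∈ Finset.range k, (W k X j).card := by
      calc X.card ≤ _ := Finset.card_le_card hsub
        _ ≤ (T0 d).card + _ := Finset.card_union_le _ _
        _ ≤ (d + 1) + ∑ j ∈ Finset.range k, (W k X j).card := by
          refine Nat.add_le_add hT (Finset.card_biUnion_le.trans ?_)
          exact Finset.sum_le_sum fun j _ => Finset.card_image_le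
    have h3 := hsum k
    have h4 : (d + 1) * 1 ≤ (d + 1) * 2 ^ k := Nat.mul_le_mul_left _ hk
    have h5 : (d + 2 + d * (d + 1)) * 2 ^ k = (d + 1) * 2 ^ k + (1 + d * (d + 1)) * 2 ^ k := by
      ring
    rw [h5]
    omega

end Pool.Agent.V8H1.GJ
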